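import Mathlib

set_option autoImplicit false

namespace Pool.Agent.K1H24.BN

open MeasureTheory Set Metric Filter Topology
open scoped ENNReal NNReal ComplexConjugate

/-- Duality of `L¹` and `L^∞` for a functional on a space of square integrable functions. -/
theorem dual {α V : Type*} [MeasurableSpace α] {μ : Measure α} [IsFiniteMeasure μ]
    [AddCommGroup V] [Module ℂ V] (T : V →ₗ[ℂ] (α → ℂ)) (hT : ∀ v, MemLp (T v) 2 μ)
    (ψ : V →ₗ[ℂ] ℂ) (hψ : ∀ v, ‖ψ v‖ ≤ ∫ a, ‖T v a‖ ∂μ) :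
    ∃ h : α → ℂ, Measurable h ∧ (∀ a, ‖h a‖ ≤ 1) ∧ ∀ v, ∫ a, T v a * h a ∂μ = ψ v := by
  have hT1 : ∀ v, MemLp (T v) 1 μ := fun v => (hT v).mono_exponent (by norm_num)
  let T1 : V →ₗ[ℂ] Lp ℂ 1 μ :=
    { toFun := fun v => (hT1 v).toLp (T v)
      map_add' := fun v w => by
        rw [← MemLp.toLp_add]
        exact MemLp.toLp_congr _ _ (by rw [map_add])
      map_smul' := fun c v => by
        rw [RingHom.id_apply, ← MemLp.toLp_const_smul]
        exact MemLp.toLp_congr _ _ (by rw [map_smul]) }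
  have hT1n : ∀ v, ‖T1 v‖ = ∫ a, ‖T v a‖ ∂μ := fun v => by
    rw [L1.norm_eq_integral_norm]
    refine integral_congr_ae ?_
    filter_upwards [(hT1 v).coeFn_toLp] with a ha
    show ‖((hT1 v).toLp (T v)) a‖ = _
    rw [ha]
  have hker : LinearMap.ker T1 ≤ LinearMap.ker ψ := fun v hv => by
    rw [LinearMap.mem_ker] at hv ⊢
    have h := hψ v
    rw [← hT1n v, hv, norm_zero] at h
    exact norm_le_zero_iff.1 h
  let f : LinearMap.range T1 →ₗ[ℂ] ℂ :=
    ((LinearMap.ker T1).liftQ ψ hker) ∘ₗ (T1.quotKerEquivRange.symm : _ →ₗ[ℂ] _)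
  have hf : ∀ v (hv : T1 v ∈ LinearMap.range T1), f ⟨T1 v, hv⟩ = ψ v := fun v hv => by
    show ((LinearMap.ker T1).liftQ ψ hker) (T1.quotKerEquivRange.symm ⟨T1 v, hv⟩) = ψ v
    rw [LinearMap.quotKerEquivRange_symm_apply_image, Submodule.mkQ_apply, Submodule.liftQ_apply]
  have hfb : ∀ x, ‖f x‖ ≤ 1 * ‖x‖ := by
    rintro ⟨x, hx⟩
    obtain ⟨v, rfl⟩ := LinearMap.mem_range.1 hx
    rw [hf v hx, one_mul]
    exact (hψ v).trans (hT1n v).ge
  obtain ⟨Φ, hΦ, hn⟩ := exists_extension_norm_eq (LinearMap.range T1) (f.mkContinuous 1 hfb)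
  have hΦ1 : ‖Φ‖ ≤ 1 := by
    rw [hn]
    exact LinearMap.mkContinuous_norm_le _ zero_le_one _
  have hΦT : ∀ v, Φ (T1 v) = ψ v := fun v => by
    have h := hΦ ⟨T1 v, LinearMap.mem_range_self T1 v⟩
    rw [h]
    exact hf v _
  -- from L² to L¹
  have hm : ∀ g : Lp ℂ 2 μ, MemLp g 1 μ := fun g => (Lp.memLp g).mono_exponent (by norm_num)
  let J : Lp ℂ 2 μ →ₗ[ℂ] Lp ℂ 1 μ :=
    { toFun := fun g => (hm g).toLp g
      map_add' := fun g k => by
        rw [← MemLp.toLp_add]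
        exact MemLp.toLp_congr _ _ (Lp.coeFn_add g k)
      map_smul' := fun c g => by
        rw [RingHom.id_apply, ← MemLp.toLp_const_smul]
        exact MemLp.toLp_congr _ _ (Lp.coeFn_smul c g) }
  have hJn : ∀ g : Lp ℂ 2 μ, ‖J g‖ = ∫ a, ‖g a‖ ∂μ := fun g => by
    rw [L1.norm_eq_integral_norm]
    refine integral_congr_ae ?_
    filter_upwards [(hm g).coeFn_toLp] with a ha
    show ‖((hm g).toLp g) a‖ = _
    rw [ha]
  have hJb : ∀ g : Lp ℂ 2 μ, ‖(Φ : Lp ℂ 1 μ →ₗ[ℂ] ℂ) (J g)‖ ≤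
      ((μ univ) ^ (1 / (1:ℝ≥0∞).toReal - 1 / (2:ℝ≥0∞).toReal)).toReal * ‖g‖ := fun g => by
    have h1 : ‖(Φ : Lp ℂ 1 μ →ₗ[ℂ] ℂ) (J g)‖ ≤ 1 * ‖J g‖ :=
      (Φ.le_opNorm _).trans (mul_le_mul_of_nonneg_right hΦ1 (norm_nonneg _))
    refine h1.trans ?_
    rw [one_mul]
    show ‖(hm g).toLp g‖ ≤ _
    rw [Lp.norm_toLp, Lp.norm_def, ← ENNReal.toReal_mul]
    refine ENNReal.toReal_mono ?_ ?_
    · refine ENNReal.mul_ne_top ?_ (Lp.eLpNorm_ne_top g)
      refine ENNReal.rpow_ne_top_of_nonneg ?_ (measure_ne_top _ _)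
      norm_num
    · rw [mul_comm]
      exact eLpNorm_le_eLpNorm_mul_rpow_measure_univ (by norm_num)
        (Lp.aestronglyMeasurable g)
  let Ψ : Lp ℂ 2 μ →L[ℂ] ℂ := ((Φ : Lp ℂ 1 μ →ₗ[ℂ] ℂ) ∘ₗ J).mkContinuous _ hJb
  let h0 : Lp ℂ 2 μ := (InnerProductSpace.toDual ℂ (Lp ℂ 2 μ)).symm Ψ
  have hh0 : ∀ g : Lp ℂ 2 μ, ∫ a, g a * conj (h0 a) ∂μ = Φ (J g) := fun g => by
    have h1 : inner ℂ h0 g = Ψ g := InnerProductSpace.toDual_symm_apply
    rw [L2.inner_def] at h1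
    have h2 : Ψ g = Φ (J g) := rfl
    rw [← h2, ← h1]
    refine integral_congr_ae (Eventually.of_forall fun a => ?_)
    show _ = inner ℂ (h0 a) (g a)
    rw [RCLike.inner_apply]
  have hmeas : Measurable (h0 : α → ℂ) := (Lp.stronglyMeasurable h0).measurable
  set A : Set α := {a | 1 < ‖h0 a‖} with hA
  have hAm : MeasurableSet A := measurableSet_lt measurable_const hmeas.norm
  let φ : α → ℂ := A.indicator fun a => h0 a / (‖h0 a‖ : ℂ)
  have hφm : Measurable φ :=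
    (hmeas.div (Complex.measurable_ofReal.comp hmeas.norm)).indicator hAm
  have hφn : ∀ a, ‖φ a‖ = A.indicator (fun _ => (1:ℝ)) a := fun a => by
    by_cases ha : a ∈ A
    · simp only [φ, indicator_of_mem ha, norm_div, Complex.norm_real, norm_norm]
      refine div_self ?_
      have : (1:ℝ) < ‖h0 a‖ := ha
      positivity
    · simp only [φ, indicator_of_notMem ha, norm_zero]
  have hφb : ∀ a, ‖φ a‖ ≤ 1 := fun a => by
    rw [hφn]
    exact indicator_le_self' (fun _ _ => zero_le_one) a |>.trans le_rfl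
  have hφL : MemLp φ 2 μ :=
    MemLp.of_bound hφm.aestronglyMeasurable 1 (Eventually.of_forall hφb)
  have h1 := hh0 (hφL.toLp φ)
  have h2 : ∫ a, (hφL.toLp φ : α → ℂ) a * conj (h0 a) ∂μ =
      ((∫ a, A.indicator (fun a => ‖h0 a‖) a ∂μ : ℝ) : ℂ) := by
    rw [← integral_complex_ofReal]
    refine integral_congr_ae ?_
    filter_upwards [hφL.coeFn_toLp] with a ha
    rw [ha]
    by_cases haA : a ∈ A
    · simp only [φ, indicator_of_mem haA]
      have h3 : (0:ℝ) < ‖h0 a‖ := lt_trans one_pos haA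
      have h4 : ((‖h0 a‖ : ℝ) : ℂ) ≠ 0 := by exact_mod_cast h3.ne'
      rw [div_mul_eq_mul_div, Complex.mul_conj, Complex.normSq_eq_norm_sq, div_eq_iff h4]
      push_cast
      ring
    · simp only [φ, indicator_of_notMem haA, zero_mul, Complex.ofReal_zero]
  have h3 : ‖Φ (J (hφL.toLp φ))‖ ≤ ∫ a, A.indicator (fun _ => (1:ℝ)) a ∂μ := by
    refine ((Φ.le_opNorm _).trans (mul_le_mul_of_nonneg_right hΦ1 (norm_nonneg _))).trans ?_
    rw [one_mul, hJn]
    refine le_of_eq (integral_congr_ae ?_)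
    filter_upwards [hφL.coeFn_toLp] with a ha
    rw [ha, hφn]
  rw [← h1, h2, Complex.norm_real] at h3
  have hi0 : Integrable (fun a => ‖h0 a‖) μ :=
    (memLp_one_iff_integrable.1 (hm h0)).norm
  have hi1 : Integrable (A.indicator fun a => ‖h0 a‖) μ := hi0.indicator hAm
  have hi2 : Integrable (A.indicator fun _ => (1:ℝ)) μ := (integrable_const 1).indicator hAm
  have h4 : ∫ a, (A.indicator (fun a => ‖h0 a‖) a - A.indicator (fun _ => (1:ℝ)) a) ∂μ ≤ 0 := by
    rw [integral_sub hi1 hi2]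
    have := (le_abs_self _).trans h3
    linarith
  have h5 : ∀ a, 0 ≤ A.indicator (fun a => ‖h0 a‖) a - A.indicator (fun _ => (1:ℝ)) a := fun a => by
    by_cases ha : a ∈ A
    · simp only [indicator_of_mem ha]
      have : (1:ℝ) < ‖h0 a‖ := ha
      linarith
    · simp only [indicator_of_notMem ha, sub_zero, le_refl]
  have h6 : ∫ a, (A.indicator (fun a => ‖h0 a‖) a - A.indicator (fun _ => (1:ℝ)) a) ∂μ = 0 :=
    le_antisymm h4 (integral_nonneg h5)
  have h7 := (integral_eq_zero_iff_of_nonneg h5 (hi1.sub hi2)).1 h6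
  have h8 : ∀ᵐ a ∂μ, ‖h0 a‖ ≤ 1 := by
    filter_upwards [h7] with a ha
    by_contra hc
    have haA : a ∈ A := not_le.1 hc
    simp only [indicator_of_mem haA, Pi.zero_apply] at ha
    have : (1:ℝ) < ‖h0 a‖ := haA
    linarith
  refine ⟨fun a => if ‖h0 a‖ ≤ 1 then conj (h0 a) else 0, ?_, ?_, ?_⟩
  · exact Measurable.ite (measurableSet_le hmeas.norm measurable_const)
      (Complex.continuous_conj.measurable.comp hmeas) measurable_const
  · intro a
    dsimp only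
    split_ifs with h
    · rwa [RCLike.norm_conj]
    · simp
  · intro v
    have h9 := hh0 ((hT v).toLp (T v))
    have h10 : J ((hT v).toLp (T v)) = T1 v :=
      MemLp.toLp_congr (hm _) (hT1 v) (hT v).coeFn_toLp
    rw [h10, hΦT] at h9
    rw [← h9]
    refine integral_congr_ae ?_
    filter_upwards [h8, (hT v).coeFn_toLp] with a ha hb
    rw [hb]
    simp only [ha, if_true]

end Pool.Agent.K1H24.BN
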