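import Pool.Agent.K1H27.BN.Stm
import Pool.Agent.K1H24.BN.Dual

set_option autoImplicit false

namespace Pool.Agent.K1H24.BN

open MeasureTheory Set Metric Filter Topology
open scoped ENNReal NNReal
open Pool.Agent.K1H27.BN

theorem t_HB : S_HB := by
  intro c ρ w hρ hw h0 h1 κ hκ hP
  -- the measure
  let wn : ℂ → ℝ≥0 := fun z => (w z).toNNReal
  have hwn : Measurable wn := hw.real_toNNReal
  have hwc : ∀ z, ((wn z : ℝ≥0) : ℝ) = w z := fun z => Real.coe_toNNReal _ (h0 z)
  let ν : Measure ℂ := volume.restrict (ball c ρ)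
  let μ : Measure ℂ := ν.withDensity fun z => (wn z : ℝ≥0∞)
  have hle : μ ≤ ν := by
    have h2 : ν.withDensity (fun z => (wn z : ℝ≥0∞)) ≤ ν.withDensity 1 := by
      refine withDensity_mono (Eventually.of_forall fun z => ?_)
      simp only [Pi.one_apply]
      have h3 : wn z ≤ 1 := by
        rw [← NNReal.coe_le_coe, hwc]
        exact_mod_cast h1 z
      exact_mod_cast h3
    rwa [withDensity_one] at h2
  haveI : IsFiniteMeasure ν := ⟨by
    rw [Measure.restrict_apply_univ]
    exact measure_ball_lt_top⟩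
  haveI : IsFiniteMeasure μ := ⟨(hle univ).trans_lt (measure_lt_top ν _)⟩
  have hint : ∀ F : ℂ → ℂ, ∫ z, F z ∂μ = ∫ z in ball c ρ, F z * (w z : ℂ) := fun F => by
    rw [integral_withDensity_eq_integral_smul hwn]
    refine integral_congr_ae (Eventually.of_forall fun z => ?_)
    show wn z • F z = _
    rw [NNReal.smul_def, hwc, Complex.real_smul, mul_comm]
  have hintr : ∀ F : ℂ → ℝ, ∫ z, F z ∂μ = ∫ z in ball c ρ, F z * w z := fun F => by
    rw [integral_withDensity_eq_integral_smul hwn]
    refine integral_congr_ae (Eventually.of_forall fun z => ?_)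
    show wn z • F z = _
    rw [NNReal.smul_def, hwc, smul_eq_mul, mul_comm]
  let T : Polynomial ℂ →ₗ[ℂ] (ℂ → ℂ) :=
    { toFun := fun P z => P.eval (z - c)
      map_add' := fun P Q => by
        funext z
        simp
      map_smul' := fun a P => by
        funext z
        simp }
  have hTc : ∀ P : Polynomial ℂ, Continuous fun z : ℂ => P.eval (z - c) := fun P =>
    P.continuous.comp (continuous_id.sub continuous_const)
  have hT : ∀ P, MemLp (T P) 2 μ := fun P => by
    obtain ⟨C, hC⟩ := (isCompact_closedBall c ρ).exists_bound_of_continuousOn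
      (hTc P).continuousOn
    have h2 : MemLp (T P) 2 ν := by
      refine MemLp.of_bound (hTc P).aestronglyMeasurable C ?_
      refine (ae_restrict_iff' measurableSet_ball).2 (Eventually.of_forall fun z hz => ?_)
      exact hC z (ball_subset_closedBall hz)
    exact h2.mono_measure hle
  let ψ : Polynomial ℂ →ₗ[ℂ] ℂ :=
    { toFun := fun P => (κ : ℂ) * P.eval 0
      map_add' := fun P Q => by simp [mul_add]
      map_smul' := fun a P => by
        simp only [Polynomial.eval_smul, smul_eq_mul, RingHom.id_apply]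
        ring }
  have hψ : ∀ P, ‖ψ P‖ ≤ ∫ z, ‖T P z‖ ∂μ := fun P => by
    rw [hintr]
    show ‖(κ : ℂ) * P.eval 0‖ ≤ _
    rw [norm_mul, Complex.norm_real, Real.norm_of_nonneg hκ.le]
    exact hP P
  obtain ⟨h, hm, hb, hh⟩ := dual T hT ψ hψ
  have hkey : ∀ k : ℕ, ∫ z, (z - c) ^ k * (ball c ρ).indicator (fun z => h z * (w z : ℂ)) z =
      (κ : ℂ) * (0:ℂ) ^ k := fun k => by
    have h2 := hh (Polynomial.X ^ k)
    rw [hint] at h2
    have h3 : ψ (Polynomial.X ^ k) = (κ : ℂ) * (0:ℂ) ^ k := by
      show (κ : ℂ) * (Polynomial.X ^ k : Polynomial ℂ).eval 0 = _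
      rw [Polynomial.eval_pow, Polynomial.eval_X]
    rw [← h3, ← h2, ← integral_indicator measurableSet_ball]
    refine integral_congr_ae (Eventually.of_forall fun z => ?_)
    show (z - c) ^ k * (ball c ρ).indicator (fun z => h z * (w z : ℂ)) z =
      (ball c ρ).indicator (fun z => (Polynomial.X ^ k : Polynomial ℂ).eval (z - c) * h z * (w z : ℂ)) z
    by_cases hz : z ∈ ball c ρ
    · rw [indicator_of_mem hz, indicator_of_mem hz, Polynomial.eval_pow, Polynomial.eval_X]
      ring
    · rw [indicator_of_notMem hz, indicator_of_notMem hz, mul_zero]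
  refine ⟨(ball c ρ).indicator fun z => h z * (w z : ℂ),
    (hm.mul (Complex.measurable_ofReal.comp hw)).indicator measurableSet_ball,
    fun z hz => indicator_of_notMem hz _, fun z => ?_, fun n => ?_, ?_⟩
  · by_cases hz : z ∈ ball c ρ
    · rw [indicator_of_mem hz, norm_mul, Complex.norm_real, Real.norm_of_nonneg (h0 z)]
      exact mul_le_of_le_one_left (h0 z) (hb z)
    · rw [indicator_of_notMem hz, norm_zero]
      exact h0 z
  · rw [hkey, pow_succ, mul_zero, mul_zero]
  · have h2 := hkey 0
    simp only [pow_zero, one_mul, mul_one] at h2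
    rw [h2]
    exact_mod_cast hκ.ne'

end Pool.Agent.K1H24.BN
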